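import Mathlib

/-!
A quadratic form in seven variables: the finite checks.
-/

set_option autoImplicit false

namespace Pool.Agent.H764MD

open Finset

/-- squared distances between seven points of the lattice `ℤ³` -/
def F : Fin 7 → Fin 7 → ℤ :=
  ![![0, 3, 3, 2, 1, 2, 2],
    ![3, 0, 4, 5, 2, 5, 9],
    ![3, 4, 0, 5, 6, 1, 5],
    ![2, 5, 5, 0, 3, 6, 2],
    ![1, 2, 6, 3, 0, 5, 5],
    ![2, 5, 1, 6, 5, 0, 4],
    ![2, 9, 5, 2, 5, 4, 0]]

/-- the determinant of a three by three matrix -/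
def d3 (a b c d e f g h i : ℤ) : ℤ := a * (e * i - f * h) - b * (d * i - f * g) + c * (d * h - e * g)

/-- the determinant of a four by four matrix -/
def d4 (M : Fin 4 → Fin 4 → ℤ) : ℤ :=
  M 0 0 * d3 (M 1 1) (M 1 2) (M 1 3) (M 2 1) (M 2 2) (M 2 3) (M 3 1) (M 3 2) (M 3 3)
  - M 0 1 * d3 (M 1 0) (M 1 2) (M 1 3) (M 2 0) (M 2 2) (M 2 3) (M 3 0) (M 3 2) (M 3 3)
  + M 0 2 * d3 (M 1 0) (M 1 1) (M 1 3) (M 2 0) (M 2 1) (M 2 3) (M 3 0) (M 3 1) (M 3 3)
  - M 0 3 * d3 (M 1 0) (M 1 1) (M 1 2) (M 2 0) (M 2 1) (M 2 2) (M 3 0) (M 3 1) (M 3 2)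

/-- the determinant of a five by five matrix -/
def d5 (M : Fin 5 → Fin 5 → ℤ) : ℤ :=
  M 0 0 * d4 (fun i j => M i.succ (Fin.succAbove 0 j))
  - M 0 1 * d4 (fun i j => M i.succ (Fin.succAbove 1 j))
  + M 0 2 * d4 (fun i j => M i.succ (Fin.succAbove 2 j))
  - M 0 3 * d4 (fun i j => M i.succ (Fin.succAbove 3 j))
  + M 0 4 * d4 (fun i j => M i.succ (Fin.succAbove 4 j))

theorem d4_eq (M : Fin 4 → Fin 4 → ℤ) : (Matrix.of M).det = d4 M := by
  rw [Matrix.det_succ_row_zero]
  simp only [Fin.sum_univ_four, Matrix.det_fin_three, Matrix.submatrix_apply, Matrix.of_apply]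
  unfold d4 d3
  simp [Fin.succAbove, Fin.lt_def]
  ring

theorem d5_eq (M : Fin 5 → Fin 5 → ℤ) : (Matrix.of M).det = d5 M := by
  rw [Matrix.det_succ_row_zero]
  have h1 : ∀ j : Fin 5, ((Matrix.of M).submatrix Fin.succ j.succAbove).det =
      d4 (fun i l => M i.succ (Fin.succAbove j l)) := fun j => d4_eq _
  simp only [h1, Fin.sum_univ_five, Matrix.of_apply]
  unfold d5
  simp
  ring

theorem check3 : ∀ i0 i1 i2 : Fin 7, i0 < i1 → i1 < i2 → ∀ j0 j1 j2 : Fin 7, j0 < j1 → j1 < j2 →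
    i0 ≠ j0 → i0 ≠ j1 → i0 ≠ j2 → i1 ≠ j0 → i1 ≠ j1 → i1 ≠ j2 → i2 ≠ j0 → i2 ≠ j1 → i2 ≠ j2 →
    d3 (F i0 j0) (F i0 j1) (F i0 j2) (F i1 j0) (F i1 j1) (F i1 j2) (F i2 j0) (F i2 j1)
      (F i2 j2) ≠ 0 := by
  decide

theorem check5 : ∀ i0 i1 i2 i3 i4 : Fin 7, i0 < i1 → i1 < i2 → i2 < i3 → i3 < i4 →
    d5 (fun a b => F (![i0, i1, i2, i3, i4] a) (![i0, i1, i2, i3, i4] b)) ≠ 0 := by
  decide

/-- a labelling of seven points has five equal labels, or two disjoint triples without a common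
label -/
theorem labels {β : Type} [DecidableEq β] (lab : Fin 7 → β) :
    (∃ S : Fin 5 → Fin 7, StrictMono S ∧ ∀ a b, lab (S a) = lab (S b)) ∨
      ∃ I J : Fin 3 → Fin 7, StrictMono I ∧ StrictMono J ∧ ∀ a b, lab (I a) ≠ lab (J b) := by
  classical
  let fib : Fin 7 → Finset (Fin 7) := fun x => univ.filter fun y => lab y = lab x
  have hfib : ∀ x y, y ∈ fib x ↔ lab y = lab x := by
    intro x y
    simp [fib]
  obtain ⟨x, hx⟩ := Finite.exists_max fun x => (fib x).card
  -- two disjoint sets without common label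
  have key : ∀ I J : Finset (Fin 7), 3 ≤ I.card → 3 ≤ J.card →
      (∀ a ∈ I, ∀ b ∈ J, lab a ≠ lab b) →
      ∃ I J : Fin 3 → Fin 7, StrictMono I ∧ StrictMono J ∧ ∀ a b, lab (I a) ≠ lab (J b) := by
    intro I J hI hJ h
    obtain ⟨I', hI', hIc⟩ := Finset.exists_subset_card_eq hI
    obtain ⟨J', hJ', hJc⟩ := Finset.exists_subset_card_eq hJ
    refine ⟨I'.orderEmbOfFin hIc, J'.orderEmbOfFin hJc, (I'.orderEmbOfFin hIc).strictMono,
      (J'.orderEmbOfFin hJc).strictMono, fun a b => ?_⟩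
    exact h _ (hI' (Finset.orderEmbOfFin_mem _ _ _)) _ (hJ' (Finset.orderEmbOfFin_mem _ _ _))
  have hcompl : ∀ s : Finset (Fin 7), sᶜ.card = 7 - s.card := by
    intro s
    rw [Finset.card_compl, Fintype.card_fin]
  by_cases h5 : 5 ≤ (fib x).card
  · left
    obtain ⟨S, hS, hSc⟩ := Finset.exists_subset_card_eq h5
    refine ⟨S.orderEmbOfFin hSc, (S.orderEmbOfFin hSc).strictMono, fun a b => ?_⟩
    have h1 := (hfib x _).1 (hS (Finset.orderEmbOfFin_mem S hSc a))
    have h2 := (hfib x _).1 (hS (Finset.orderEmbOfFin_mem S hSc b))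
    rw [h1, h2]
  right
  by_cases h3 : 3 ≤ (fib x).card
  · refine key (fib x) (fib x)ᶜ h3 (by rw [hcompl]; omega) ?_
    intro a ha b hb hab
    rw [Finset.mem_compl, hfib] at hb
    rw [hfib] at ha
    exact hb (by rw [← hab, ha])
  by_cases h2 : (fib x).card = 2
  · obtain ⟨z, hz⟩ : ∃ z, z ∉ fib x := by
      by_contra hcon
      push Not at hcon
      have h4 : fib x = univ := by
        ext y
        simp [hcon y]
      rw [h4, Finset.card_univ, Fintype.card_fin] at h2
      omega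
    refine key (insert z (fib x)) (fib x ∪ fib z)ᶜ ?_ ?_ ?_
    · rw [Finset.card_insert_of_notMem hz]
      omega
    · rw [hcompl]
      have h4 := Finset.card_union_le (fib x) (fib z)
      have h6 := hx z
      omega
    · intro a ha b hb hab
      rw [Finset.mem_compl, Finset.mem_union, hfib, hfib] at hb
      push Not at hb
      rw [Finset.mem_insert, hfib] at ha
      rcases ha with rfl | ha
      · exact hb.2 hab.symm
      · exact hb.1 (by rw [← hab, ha])
  · -- the labels are distinct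
    have h1 : ∀ a b, lab a = lab b → a = b := by
      intro a b hab
      have h4 := hx b
      have h6 : ({a, b} : Finset (Fin 7)) ⊆ fib b := by
        intro y hy
        rw [Finset.mem_insert, Finset.mem_singleton] at hy
        rw [hfib]
        rcases hy with rfl | rfl
        · exact hab
        · rfl
      have h7 := Finset.card_le_card h6
      by_contra hne
      rw [Finset.card_pair hne] at h7
      omega
    refine key {0, 1, 2} {3, 4, 5} (by decide) (by decide) ?_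
    intro a ha b hb hab
    have h4 := h1 a b hab
    subst h4
    clear hab
    revert ha hb
    revert a
    decide

end Pool.Agent.H764MD
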