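import Mathlib

/-!
Mixed determinants of tuples of `2 × 2` matrices.
-/

set_option autoImplicit false

namespace Pool.Agent.H764MD

open Finset

noncomputable section

/-- the principal minor -/
def pm {n : ℕ} {R : Type} [CommRing R] (A : Matrix (Fin n) (Fin n) R) (S : Finset (Fin n)) : R :=
  (A.submatrix (fun i : S => (i : Fin n)) (fun i : S => (i : Fin n))).det

open Classical in
/-- the mixed determinant -/
def eta {n m : ℕ} {R : Type} [CommRing R] (A : Fin m → Matrix (Fin n) (Fin n) R) : R :=
  ∑ S ∈ (univ : Finset (Fin m → Finset (Fin n))).filter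
    (fun S => (∀ i j, i ≠ j → Disjoint (S i) (S j)) ∧ univ.biUnion S = univ),
    ∏ j, pm (A j) (S j)

theorem eta_eq {n m : ℕ} {R : Type} [CommRing R] (A : Fin m → Matrix (Fin n) (Fin n) R) :
    eta A = ∑ c : Fin n → Fin m, ∏ j, pm (A j) (univ.filter (fun i => c i = j)) := by
  classical
  unfold eta
  symm
  refine Finset.sum_bij (fun c _ => fun j => univ.filter (fun i => c i = j)) ?_ ?_ ?_ ?_
  · intro c _
    rw [mem_filter]
    refine ⟨mem_univ _, ?_, ?_⟩
    · intro i j hij
      rw [disjoint_filter]
      rintro x - rfl h
      exact hij h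
    · ext x
      simp
  · intro c _ c' _ h
    funext i
    have h1 := congrFun h (c i)
    have h2 : i ∈ univ.filter (fun x => c x = c i) := by simp
    rw [h1, mem_filter] at h2
    exact h2.2.symm
  · intro S hS
    rw [mem_filter] at hS
    obtain ⟨-, hd, hu⟩ := hS
    have h1 : ∀ i, ∃ j, i ∈ S j := by
      intro i
      have : i ∈ univ.biUnion S := by rw [hu]; exact mem_univ i
      rw [mem_biUnion] at this
      obtain ⟨j, -, hj⟩ := this
      exact ⟨j, hj⟩
    choose c hc using h1
    refine ⟨c, mem_univ _, ?_⟩
    funext j
    ext i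
    rw [mem_filter]
    constructor
    · rintro ⟨-, rfl⟩
      exact hc i
    · intro hi
      refine ⟨mem_univ _, ?_⟩
      by_contra hne
      exact (Finset.disjoint_left.1 (hd _ _ hne)) (hc i) hi
  · intro c _
    rfl

theorem pm_empty {n : ℕ} {R : Type} [CommRing R] (A : Matrix (Fin n) (Fin n) R) :
    pm A ∅ = 1 := by
  unfold pm
  exact Matrix.det_isEmpty

theorem pm_singleton {n : ℕ} {R : Type} [CommRing R] (A : Matrix (Fin n) (Fin n) R) (i : Fin n) :
    pm A {i} = A i i := by
  unfold pm
  have : Subsingleton (({i} : Finset (Fin n)) : Type) := by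
    refine ⟨fun x y => ?_⟩
    apply Subtype.ext
    rw [mem_singleton.1 x.2, mem_singleton.1 y.2]
  rw [Matrix.det_eq_elem_of_subsingleton _ (⟨i, mem_singleton_self i⟩ : ({i} : Finset (Fin n)))]
  rfl

theorem pm_univ {n : ℕ} {R : Type} [CommRing R] (A : Matrix (Fin n) (Fin n) R) :
    pm A univ = A.det := by
  unfold pm
  let e : ((univ : Finset (Fin n)) : Type) ≃ Fin n := Equiv.subtypeUnivEquiv fun i => mem_univ i
  exact Matrix.det_submatrix_equiv_self e A

theorem eta_two {m : ℕ} {R : Type} [CommRing R] (A : Fin m → Matrix (Fin 2) (Fin 2) R) :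
    eta A = (∑ j, A j 0 0) * (∑ j, A j 1 1) - ∑ j, A j 0 1 * A j 1 0 := by
  classical
  rw [eta_eq]
  have h1 : ∀ c : Fin 2 → Fin m, ∏ j, pm (A j) (univ.filter (fun i => c i = j)) =
      A (c 0) 0 0 * A (c 1) 1 1 - (if c 0 = c 1 then A (c 0) 0 1 * A (c 0) 1 0 else 0) := by
    intro c
    by_cases h : c 0 = c 1
    · rw [if_pos h, Finset.prod_eq_single (c 0)]
      · have h2 : univ.filter (fun i => c i = c 0) = univ := by
          ext i
          fin_cases i
          · simp
          · simp [h]
        rw [h2, pm_univ, Matrix.det_fin_two, ← h]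
      · intro b _ hb
        have h2 : univ.filter (fun i => c i = b) = ∅ := by
          ext i
          fin_cases i
          · simp [Ne.symm hb]
          · simp only [mem_filter, mem_univ, true_and, Finset.notMem_empty, iff_false]
            intro h3
            apply hb
            rw [← h3]
            exact h.symm
        rw [h2, pm_empty]
      · intro h2
        exact absurd (mem_univ _) h2
    · rw [if_neg h, sub_zero, Finset.prod_eq_mul (c 0) (c 1) h]
      · have h2 : univ.filter (fun i => c i = c 0) = {0} := by
          ext i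
          fin_cases i
          · simp
          · simp [Ne.symm h]
        have h3 : univ.filter (fun i => c i = c 1) = {1} := by
          ext i
          fin_cases i
          · simp [h]
          · simp
        rw [h2, h3, pm_singleton, pm_singleton]
      · intro b _ hb
        have h2 : univ.filter (fun i => c i = b) = ∅ := by
          ext i
          fin_cases i
          · simp [Ne.symm hb.1]
          · simp [Ne.symm hb.2]
        rw [h2, pm_empty]
      · intro h2
        exact absurd (mem_univ _) h2
      · intro h2
        exact absurd (mem_univ _) h2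
  rw [Finset.sum_congr rfl fun c _ => h1 c]
  rw [← (finTwoArrowEquiv (Fin m)).symm.sum_comp, Fintype.sum_prod_type]
  simp only [finTwoArrowEquiv_symm_apply, Matrix.cons_val_zero, Matrix.cons_val_one,
    Finset.sum_sub_distrib]
  rw [Finset.sum_mul_sum]
  congr 1
  refine Finset.sum_congr rfl fun p _ => ?_
  rw [Finset.sum_ite_eq]
  simp

end

end Pool.Agent.H764MD
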