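import Mathlib
import Pool.Agent.H764MD.Eta
import Pool.Agent.H764MD.Comb

/-!
A real stable quadratic form which is not a mixed determinant of positive pencils.
-/

set_option autoImplicit false

namespace Pool.Agent.H764MD

open Finset

noncomputable section

/-- sums over `j` of products are at most products of sums; equality -/
theorem prod_zero {m : ℕ} (al be g : Fin m → ℝ) (ha : ∀ j, 0 ≤ al j) (hb : ∀ j, 0 ≤ be j)
    (hg : ∀ j, g j ≤ al j * be j) (heq : (∑ j, al j) * (∑ j, be j) = ∑ j, g j) :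
    (∀ i j, i ≠ j → al i * be j = 0) ∧ ∀ j, g j = al j * be j := by
  classical
  have h1 : (∑ j, al j) * (∑ j, be j) = ∑ i, ∑ j, al i * be j := by
    rw [Finset.sum_mul_sum]
  have h2 : ∀ i j, 0 ≤ al i * be j := fun i j => mul_nonneg (ha i) (hb j)
  have h3 : ∑ i, ∑ j, al i * be j = ∑ i, (al i * be i + ∑ j ∈ univ.erase i, al i * be j) := by
    refine Finset.sum_congr rfl fun i _ => ?_
    rw [← Finset.add_sum_erase univ (fun j => al i * be j) (mem_univ i)]
  have h4 : ∑ i, ((al i * be i - g i) + ∑ j ∈ univ.erase i, al i * be j) = 0 := by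
    have h5 : ∑ i, ((al i * be i - g i) + ∑ j ∈ univ.erase i, al i * be j) =
        (∑ i, (al i * be i + ∑ j ∈ univ.erase i, al i * be j)) - ∑ i, g i := by
      rw [← Finset.sum_sub_distrib]
      exact Finset.sum_congr rfl fun i _ => by ring
    rw [h5, ← h3, ← h1, heq, sub_self]
  have h5 : ∀ i, 0 ≤ (al i * be i - g i) + ∑ j ∈ univ.erase i, al i * be j := fun i =>
    add_nonneg (sub_nonneg.2 (hg i)) (Finset.sum_nonneg fun j _ => h2 i j)
  have h6 := (Finset.sum_eq_zero_iff_of_nonneg fun i _ => h5 i).1 h4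
  refine ⟨fun i j hij => ?_, fun j => ?_⟩
  · have h7 := h6 i (mem_univ i)
    have h8 : ∑ j ∈ univ.erase i, al i * be j = 0 := by
      have h9 : 0 ≤ ∑ j ∈ univ.erase i, al i * be j := Finset.sum_nonneg fun j _ => h2 i j
      have h10 := hg i
      linarith
    exact (Finset.sum_eq_zero_iff_of_nonneg fun j _ => h2 i j).1 h8 j
      (Finset.mem_erase.2 ⟨Ne.symm hij, mem_univ j⟩)
  · have h7 := h6 j (mem_univ j)
    have h9 : 0 ≤ ∑ i ∈ univ.erase j, al j * be i := Finset.sum_nonneg fun i _ => h2 j i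
    have h10 := hg j
    linarith

/-- the obstruction -/
theorem obstruction {m : ℕ} (al be r s : Fin m → Fin 7 → ℝ) (ha : ∀ j k, 0 ≤ al j k)
    (hb : ∀ j k, 0 ≤ be j k) (hpsd : ∀ j k, r j k ^ 2 + s j k ^ 2 ≤ al j k * be j k)
    (hdiag : ∀ k, (∑ j, al j k) * (∑ j, be j k) = ∑ j, (r j k ^ 2 + s j k ^ 2))
    (hoff : ∀ k l, k ≠ l → (∑ j, al j k) * (∑ j, be j l) + (∑ j, al j l) * (∑ j, be j k) -
      2 * ∑ j, (r j k * r j l + s j k * s j l) = (F k l : ℝ)) : False := by
  classical
  have hF0 : ∀ k, F k k = 0 := by decide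
  -- the unique active index
  have hz : ∀ k i j, i ≠ j → al i k * be j k = 0 := fun k =>
    (prod_zero (fun j => al j k) (fun j => be j k) (fun j => r j k ^ 2 + s j k ^ 2)
      (fun j => ha j k) (fun j => hb j k) (fun j => hpsd j k) (hdiag k)).1
  have hact : ∀ k i j, i ≠ j → (r j k ≠ 0 ∨ s j k ≠ 0) → al i k = 0 ∧ be i k = 0 := by
    intro k i j hij h
    have h1 : 0 < r j k ^ 2 + s j k ^ 2 := by
      rcases h with h | h <;> positivity
    have h2 := hpsd j k
    have h3 : al j k ≠ 0 := by
      intro h0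
      rw [h0, zero_mul] at h2
      linarith
    have h4 : be j k ≠ 0 := by
      intro h0
      rw [h0, mul_zero] at h2
      linarith
    exact ⟨(mul_eq_zero.1 (hz k i j hij)).resolve_right h4,
      (mul_eq_zero.1 (hz k j i (Ne.symm hij))).resolve_left h3⟩
  have hact2 : ∀ k i j, i ≠ j → (r j k ≠ 0 ∨ s j k ≠ 0) → r i k = 0 ∧ s i k = 0 := by
    intro k i j hij h
    obtain ⟨h1, h2⟩ := hact k i j hij h
    have h3 := hpsd i k
    rw [h1, zero_mul] at h3
    constructor
    · nlinarith [sq_nonneg (r i k), sq_nonneg (s i k)]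
    · nlinarith [sq_nonneg (r i k), sq_nonneg (s i k)]
  -- labels
  let lab : Fin 7 → Option (Fin m) × Fin 7 := fun k =>
    if h : ∃ j, r j k ≠ 0 ∨ s j k ≠ 0 then (some h.choose, 0) else (none, k)
  have hlab : ∀ k j, (r j k ≠ 0 ∨ s j k ≠ 0) → lab k = (some j, 0) := by
    intro k j hj
    have h1 : ∃ j, r j k ≠ 0 ∨ s j k ≠ 0 := ⟨j, hj⟩
    simp only [lab, dif_pos h1]
    have h2 : h1.choose = j := by
      by_contra hne
      obtain ⟨h3, h4⟩ := hact2 k _ _ (Ne.symm hne) h1.choose_spec
      rcases hj with h5 | h5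
      · exact h5 h3
      · exact h5 h4
    rw [h2]
  have hcross : ∀ k l, lab k ≠ lab l → ∀ j, r j k * r j l + s j k * s j l = 0 := by
    intro k l hkl j
    by_cases hk : r j k ≠ 0 ∨ s j k ≠ 0
    · by_cases hl : r j l ≠ 0 ∨ s j l ≠ 0
      · exact absurd ((hlab k j hk).trans (hlab l j hl).symm) hkl
      · push Not at hl
        rw [hl.1, hl.2, mul_zero, mul_zero, add_zero]
    · push Not at hk
      rw [hk.1, hk.2, zero_mul, zero_mul, add_zero]
  set a : Fin 7 → ℝ := fun k => ∑ j, al j k with haa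
  set b : Fin 7 → ℝ := fun k => ∑ j, be j k with hbb
  have hoff1 : ∀ k l, lab k ≠ lab l → a k * b l + a l * b k = (F k l : ℝ) := by
    intro k l hkl
    have h1 := hoff k l (fun h => hkl (by rw [h]))
    rw [Finset.sum_eq_zero fun j _ => hcross k l hkl j, mul_zero, sub_zero] at h1
    exact h1
  rcases labels lab with ⟨S, hS, hSl⟩ | ⟨I, J, hI, hJ, hIJ⟩
  · -- five points of one class
    have hinj := hS.injective
    -- the common label is an active index
    obtain ⟨j0, hj0⟩ : ∃ j, r j (S 0) ≠ 0 ∨ s j (S 0) ≠ 0 := by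
      by_contra hcon
      have h1 : lab (S 0) = (none, S 0) := by
        simp only [lab, dif_neg hcon]
      have h2 := hSl 1 0
      rw [h1] at h2
      by_cases h3 : ∃ j, r j (S 1) ≠ 0 ∨ s j (S 1) ≠ 0
      · simp only [lab, dif_pos h3] at h2
        have := congrArg Prod.fst h2
        simp at this
      · simp only [lab, dif_neg h3] at h2
        have h4 := congrArg Prod.snd h2
        exact absurd (hinj h4) (by decide)
    have hlabS : ∀ t, lab (S t) = (some j0, 0) := fun t => by
      rw [hSl t 0, hlab (S 0) j0 hj0]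
    have hactS : ∀ t, r j0 (S t) ≠ 0 ∨ s j0 (S t) ≠ 0 := by
      intro t
      have h1 := hlabS t
      by_cases h3 : ∃ j, r j (S t) ≠ 0 ∨ s j (S t) ≠ 0
      · simp only [lab, dif_pos h3] at h1
        have h4 := congrArg Prod.fst h1
        have h5 : h3.choose = j0 := Option.some_injective _ h4
        rw [← h5]
        exact h3.choose_spec
      · simp only [lab, dif_neg h3] at h1
        have h4 := congrArg Prod.fst h1
        simp at h4
    have hother : ∀ t j, j ≠ j0 → r j (S t) = 0 ∧ s j (S t) = 0 := fun t j hj =>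
      hact2 (S t) j j0 hj (hactS t)
    have hsum : ∀ t u, ∑ j, (r j (S t) * r j (S u) + s j (S t) * s j (S u)) =
        r j0 (S t) * r j0 (S u) + s j0 (S t) * s j0 (S u) := by
      intro t u
      rw [Finset.sum_eq_single j0]
      · intro j _ hj
        obtain ⟨h1, h2⟩ := hother t j hj
        rw [h1, h2, zero_mul, zero_mul, add_zero]
      · intro h
        exact absurd (mem_univ _) h
    have hG : ∀ t u, (F (S t) (S u) : ℝ) = a (S t) * b (S u) + a (S u) * b (S t) -
        2 * (r j0 (S t) * r j0 (S u) + s j0 (S t) * s j0 (S u)) := by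
      intro t u
      by_cases htu : t = u
      · subst htu
        rw [hF0, ← hsum]
        have h1 := hdiag (S t)
        have h2 : ∑ j, (r j (S t) * r j (S t) + s j (S t) * s j (S t)) =
            ∑ j, (r j (S t) ^ 2 + s j (S t) ^ 2) :=
          Finset.sum_congr rfl fun j _ => by ring
        rw [h2, ← h1]
        simp only [haa, hbb]
        push_cast
        ring
      · rw [← hsum, hoff (S t) (S u) (fun h => htu (hinj h))]
    -- a linear relation
    let v : Fin 5 → (Fin 4 → ℝ) := fun t => ![a (S t), b (S t), r j0 (S t), s j0 (S t)]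
    have hdep : ¬ LinearIndependent ℝ v := by
      intro h
      have h1 := h.fintype_card_le_finrank
      rw [Module.finrank_fin_fun, Fintype.card_fin] at h1
      omega
    rw [Fintype.linearIndependent_iff] at hdep
    push Not at hdep
    obtain ⟨c, hc, t0, ht0⟩ := hdep
    have hc0 : ∑ t, c t * a (S t) = 0 := by
      have := congrFun hc 0
      simpa [v, Finset.sum_apply] using this
    have hc1 : ∑ t, c t * b (S t) = 0 := by
      have := congrFun hc 1
      simpa [v, Finset.sum_apply] using this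
    have hc2 : ∑ t, c t * r j0 (S t) = 0 := by
      have := congrFun hc 2
      simpa [v, Finset.sum_apply] using this
    have hc3 : ∑ t, c t * s j0 (S t) = 0 := by
      have := congrFun hc 3
      simpa [v, Finset.sum_apply] using this
    let Mz : Matrix (Fin 5) (Fin 5) ℤ := Matrix.of fun x y => F (S x) (S y)
    have hker : (Mz.map (Int.castRingHom ℝ)).mulVec c = 0 := by
      funext t
      change ∑ u, (F (S t) (S u) : ℝ) * c u = 0
      have h1 : ∀ u, (F (S t) (S u) : ℝ) * c u = a (S t) * (c u * b (S u)) +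
          b (S t) * (c u * a (S u)) - 2 * (r j0 (S t) * (c u * r j0 (S u)) +
            s j0 (S t) * (c u * s j0 (S u))) := by
        intro u
        rw [hG]
        ring
      rw [Finset.sum_congr rfl fun u _ => h1 u, Finset.sum_sub_distrib, Finset.sum_add_distrib,
        ← Finset.mul_sum, ← Finset.mul_sum, ← Finset.mul_sum, Finset.sum_add_distrib,
        ← Finset.mul_sum, ← Finset.mul_sum, hc0, hc1, hc2, hc3]
      ring
    have hdet : (Mz.map (Int.castRingHom ℝ)).det = 0 := by
      apply Matrix.exists_mulVec_eq_zero_iff.1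
      refine ⟨c, ?_, hker⟩
      intro h
      exact ht0 (by rw [h]; rfl)
    have hdet' : Mz.det = 0 := by
      have h1 : (Mz.map (Int.castRingHom ℝ)).det = ((Mz.det : ℤ) : ℝ) :=
        ((Int.castRingHom ℝ).map_det Mz).symm
      rw [h1] at hdet
      exact_mod_cast hdet
    have h1 := check5 (S 0) (S 1) (S 2) (S 3) (S 4) (hS (by decide)) (hS (by decide))
      (hS (by decide)) (hS (by decide))
    apply h1
    have h2 : S = ![S 0, S 1, S 2, S 3, S 4] := by
      funext t
      fin_cases t <;> rfl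
    rw [← h2, ← d5_eq]
    exact hdet'
  · -- two disjoint triples
    have hne : ∀ x y, I x ≠ J y := fun x y h => hIJ x y (by rw [h])
    have h1 := check3 (I 0) (I 1) (I 2) (hI (by decide)) (hI (by decide)) (J 0) (J 1) (J 2)
      (hJ (by decide)) (hJ (by decide)) (hne _ _) (hne _ _) (hne _ _) (hne _ _) (hne _ _)
      (hne _ _) (hne _ _) (hne _ _) (hne _ _)
    apply h1
    have h2 : ((d3 (F (I 0) (J 0)) (F (I 0) (J 1)) (F (I 0) (J 2)) (F (I 1) (J 0))
      (F (I 1) (J 1)) (F (I 1) (J 2)) (F (I 2) (J 0)) (F (I 2) (J 1)) (F (I 2) (J 2)) : ℤ) : ℝ)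
        = 0 := by
      unfold d3
      push_cast
      rw [← hoff1 _ _ (hIJ 0 0), ← hoff1 _ _ (hIJ 0 1), ← hoff1 _ _ (hIJ 0 2),
        ← hoff1 _ _ (hIJ 1 0), ← hoff1 _ _ (hIJ 1 1), ← hoff1 _ _ (hIJ 1 2),
        ← hoff1 _ _ (hIJ 2 0), ← hoff1 _ _ (hIJ 2 1), ← hoff1 _ _ (hIJ 2 2)]
      ring
    exact_mod_cast h2

end

end Pool.Agent.H764MD
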