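import Mathlib
import Pool.Agent.H764MD.Main

/-!
A real stable quadratic form which is not a mixed determinant of positive pencils.
-/

set_option autoImplicit false

namespace Pool.Agent.H764MD

open Finset MvPolynomial
open scoped ComplexOrder

noncomputable section

/-- the quadratic form -/
def q : MvPolynomial (Fin 7) ℝ := ∑ k, ∑ l, C ((F k l : ℝ) / 2) * X k * X l

theorem q_hom : q.IsHomogeneous 2 := by
  unfold q
  refine IsHomogeneous.sum _ _ _ fun k _ => IsHomogeneous.sum _ _ _ fun l _ => ?_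
  have h1 := ((isHomogeneous_C (Fin 7) ((F k l : ℝ) / 2)).mul
    (isHomogeneous_X ℝ k)).mul (isHomogeneous_X ℝ l)
  exact h1

theorem eval_q {A : Type} [CommRing A] [Algebra ℝ A] (z : Fin 7 → A) :
    aeval z q = ∑ k, ∑ l, algebraMap ℝ A ((F k l : ℝ) / 2) * z k * z l := by
  unfold q
  simp only [map_sum, map_mul, aeval_C, aeval_X]

/-- the reversed Cauchy-Schwarz inequality -/
theorem reversed (a b c1 c2 c3 a' b' c1' c2' c3' : ℝ)
    (hpos : 0 < a' * b' - c1' ^ 2 - c2' ^ 2 - c3' ^ 2)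
    (hre : a * b - c1 ^ 2 - c2 ^ 2 - c3 ^ 2 = a' * b' - c1' ^ 2 - c2' ^ 2 - c3' ^ 2)
    (him : a * b' + a' * b = 2 * (c1 * c1' + c2 * c2' + c3 * c3')) : False := by
  set X := c1 ^ 2 + c2 ^ 2 + c3 ^ 2 with hX
  set Y := c1' ^ 2 + c2' ^ 2 + c3' ^ 2 with hY
  have hX0 : 0 ≤ X := by positivity
  have hY0 : 0 ≤ Y := by positivity
  have h1 : X < a * b := by
    rw [hX]
    linarith
  have h2 : Y < a' * b' := by
    rw [hY]
    linarith
  have h3 : (c1 * c1' + c2 * c2' + c3 * c3') ^ 2 ≤ X * Y := by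
    rw [hX, hY]
    nlinarith [sq_nonneg (c1 * c2' - c2 * c1'), sq_nonneg (c1 * c3' - c3 * c1'),
      sq_nonneg (c2 * c3' - c3 * c2')]
  have h4 : X * Y < (a * b) * (a' * b') := by
    have h5 : X * Y ≤ (a * b) * Y := mul_le_mul_of_nonneg_right h1.le hY0
    have h6 : (a * b) * Y < (a * b) * (a' * b') :=
      mul_lt_mul_of_pos_left h2 (lt_of_le_of_lt hX0 h1)
    linarith
  have h5 : 4 * ((a * b) * (a' * b')) ≤ (a * b' + a' * b) ^ 2 := by
    nlinarith [sq_nonneg (a * b' - a' * b)]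
  rw [him] at h5
  nlinarith

theorem q_stable (z : Fin 7 → ℂ) (hz : ∀ k, 0 < (z k).im) : aeval z q ≠ 0 := by
  intro h
  have h1 : aeval z q = (z 0 + z 1 + z 2 + z 3 + z 4 + z 5 + z 6) *
      (3 * z 1 + 3 * z 2 + 2 * z 3 + z 4 + 2 * z 5 + 2 * z 6) -
      (z 1 + z 2 - z 3 + z 5 - z 6) ^ 2 - (-z 1 + z 2 - z 4 + z 5 + z 6) ^ 2 -
      (z 1 + z 2 + z 3) ^ 2 := by
    rw [eval_q]
    simp only [Fin.sum_univ_seven, F]
    simp
    ring
  rw [h1] at h
  have h2 := congrArg Complex.re h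
  have h3 := congrArg Complex.im h
  simp [pow_two] at h2 h3
  have hy0 := hz 0
  have hy1 := hz 1
  have hy2 := hz 2
  have hy3 := hz 3
  have hy4 := hz 4
  have hy5 := hz 5
  have hy6 := hz 6
  generalize (z 0).re = x0 at *
  generalize (z 1).re = x1 at *
  generalize (z 2).re = x2 at *
  generalize (z 3).re = x3 at *
  generalize (z 4).re = x4 at *
  generalize (z 5).re = x5 at *
  generalize (z 6).re = x6 at *
  generalize (z 0).im = y0 at *
  generalize (z 1).im = y1 at *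
  generalize (z 2).im = y2 at *
  generalize (z 3).im = y3 at *
  generalize (z 4).im = y4 at *
  generalize (z 5).im = y5 at *
  generalize (z 6).im = y6 at *
  refine reversed (x0 + x1 + x2 + x3 + x4 + x5 + x6)
    (3 * x1 + 3 * x2 + 2 * x3 + x4 + 2 * x5 + 2 * x6)
    (x1 + x2 - x3 + x5 - x6) (-x1 + x2 - x4 + x5 + x6) (x1 + x2 + x3)
    (y0 + y1 + y2 + y3 + y4 + y5 + y6)
    (3 * y1 + 3 * y2 + 2 * y3 + y4 + 2 * y5 + 2 * y6)
    (y1 + y2 - y3 + y5 - y6) (-y1 + y2 - y4 + y5 + y6) (y1 + y2 + y3) ?_ ?_ ?_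
  · have h4 : (y0 + y1 + y2 + y3 + y4 + y5 + y6) *
        (3 * y1 + 3 * y2 + 2 * y3 + y4 + 2 * y5 + 2 * y6) -
        (y1 + y2 - y3 + y5 - y6) ^ 2 - (-y1 + y2 - y4 + y5 + y6) ^ 2 - (y1 + y2 + y3) ^ 2 =
        3 * (y0 * y1) + 3 * (y0 * y2) + 2 * (y0 * y3) + 1 * (y0 * y4) + 2 * (y0 * y5) +
        2 * (y0 * y6) + 4 * (y1 * y2) + 5 * (y1 * y3) + 2 * (y1 * y4) + 5 * (y1 * y5) +
        9 * (y1 * y6) + 5 * (y2 * y3) + 6 * (y2 * y4) + 1 * (y2 * y5) + 5 * (y2 * y6) +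
        3 * (y3 * y4) + 6 * (y3 * y5) + 2 * (y3 * y6) + 5 * (y4 * y5) + 5 * (y4 * y6) +
        4 * (y5 * y6) := by ring
    rw [h4]
    positivity
  · linarith
  · linarith

theorem q_ne : q ≠ 0 := by
  intro h
  have h1 := q_stable (fun _ => Complex.I) (fun _ => by simp)
  rw [h, map_zero] at h1
  exact h1 rfl

/-- the pencil -/
def pencil {n l : ℕ} (A : Fin l → Matrix (Fin n) (Fin n) ℂ) :
    Matrix (Fin n) (Fin n) (MvPolynomial (Fin l) ℂ) :=
  ∑ k, (X k : MvPolynomial (Fin l) ℂ) • (A k).map C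

theorem eval_pencil {n l : ℕ} (A : Fin l → Matrix (Fin n) (Fin n) ℂ) (z : Fin l → ℂ)
    (i j : Fin n) : eval z (pencil A i j) = ∑ k, z k * A k i j := by
  unfold pencil
  rw [Matrix.sum_apply, map_sum]
  refine Finset.sum_congr rfl fun k _ => ?_
  rw [Matrix.smul_apply, Matrix.map_apply, smul_eq_mul, map_mul, eval_X, eval_C]

theorem not_mixed {m : ℕ} (A : Fin m → Fin 7 → Matrix (Fin 2) (Fin 2) ℂ)
    (hA : ∀ j k, (A j k).PosSemidef)
    (h : map (algebraMap ℝ ℂ) q = eta fun j => pencil (A j)) : False := by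
  rw [eta_two] at h
  have hev : ∀ z : Fin 7 → ℂ, ∑ k, ∑ l, ((F k l : ℝ) / 2 : ℂ) * z k * z l =
      (∑ j, ∑ k, z k * A j k 0 0) * (∑ j, ∑ k, z k * A j k 1 1) -
        ∑ j, (∑ k, z k * A j k 0 1) * (∑ k, z k * A j k 1 0) := by
    intro z
    have h1 := congrArg (eval z) h
    rw [eval_map] at h1
    have h2 : eval₂ (algebraMap ℝ ℂ) z q = aeval z q := rfl
    rw [h2, eval_q, map_sub, map_mul, map_sum, map_sum, map_sum] at h1
    simp only [map_mul, eval_pencil] at h1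
    rw [← h1]
    refine Finset.sum_congr rfl fun k _ => Finset.sum_congr rfl fun l _ => ?_
    simp
  -- the entries
  have hH : ∀ j k, A j k 1 0 = (starRingEnd ℂ) (A j k 0 1) := by
    intro j k
    have h1 := (hA j k).isHermitian
    exact (h1.apply 1 0).symm
  have h00 : ∀ j k, 0 ≤ (A j k 0 0).re ∧ (A j k 0 0).im = 0 := by
    intro j k
    have h1 := (hA j k).diag_nonneg (i := 0)
    rw [Complex.le_def] at h1
    exact ⟨h1.1, h1.2.symm⟩
  have h11 : ∀ j k, 0 ≤ (A j k 1 1).re ∧ (A j k 1 1).im = 0 := by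
    intro j k
    have h1 := (hA j k).diag_nonneg (i := 1)
    rw [Complex.le_def] at h1
    exact ⟨h1.1, h1.2.symm⟩
  have h00' : ∀ j k, A j k 0 0 = ((A j k 0 0).re : ℂ) := fun j k =>
    Complex.ext rfl (by rw [(h00 j k).2, Complex.ofReal_im])
  have h11' : ∀ j k, A j k 1 1 = ((A j k 1 1).re : ℂ) := fun j k =>
    Complex.ext rfl (by rw [(h11 j k).2, Complex.ofReal_im])
  have hdet : ∀ j k, (A j k 0 1).re ^ 2 + (A j k 0 1).im ^ 2 ≤
      (A j k 0 0).re * (A j k 1 1).re := by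
    intro j k
    have h1 := (hA j k).det_nonneg
    rw [Matrix.det_fin_two, Complex.le_def] at h1
    have h2 := h1.1
    rw [hH, h00' j k, h11' j k] at h2
    simp at h2
    nlinarith
  -- values at vectors
  have hB : ∀ (z w : Fin 7 → ℂ), ∑ k, ∑ l, ((F k l : ℝ) / 2 : ℂ) * (z k + w k) * (z l + w l) -
      ∑ k, ∑ l, ((F k l : ℝ) / 2 : ℂ) * z k * z l - ∑ k, ∑ l, ((F k l : ℝ) / 2 : ℂ) * w k * w l =
      (∑ j, ∑ k, z k * A j k 0 0) * (∑ j, ∑ k, w k * A j k 1 1) +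
      (∑ j, ∑ k, w k * A j k 0 0) * (∑ j, ∑ k, z k * A j k 1 1) -
        ∑ j, ((∑ k, z k * A j k 0 1) * (∑ k, w k * A j k 1 0) +
          (∑ k, w k * A j k 0 1) * (∑ k, z k * A j k 1 0)) := by
    intro z w
    rw [hev z, hev w]
    have h1 := hev (fun k => z k + w k)
    rw [h1]
    simp only [add_mul, mul_add, Finset.sum_add_distrib]
    ring
  have hS : ∀ (k : Fin 7) (g : Fin 7 → ℂ), ∑ l, (Pi.single k (1 : ℂ) : Fin 7 → ℂ) l * g l = g k := by
    intro k g
    rw [Finset.sum_eq_single k, Pi.single_eq_same, one_mul]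
    · intro b _ hb
      rw [Pi.single_eq_of_ne hb, zero_mul]
    · intro h
      exact absurd (mem_univ _) h
  have hF0 : ∀ k, F k k = 0 := by decide
  have hFs : ∀ k l, F k l = F l k := by decide
  have hQ : ∀ (k l : Fin 7), ∑ x, ∑ y, ((F x y : ℝ) / 2 : ℂ) *
      (Pi.single k (1 : ℂ) : Fin 7 → ℂ) x * (Pi.single l (1 : ℂ) : Fin 7 → ℂ) y =
      ((F k l : ℝ) / 2 : ℂ) := by
    intro k l
    have h1 : ∀ x, ∑ y, ((F x y : ℝ) / 2 : ℂ) *
      (Pi.single k (1 : ℂ) : Fin 7 → ℂ) x * (Pi.single l (1 : ℂ) : Fin 7 → ℂ) y =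
      (Pi.single k (1 : ℂ) : Fin 7 → ℂ) x * ((F x l : ℝ) / 2 : ℂ) := by
      intro x
      rw [← hS l (fun y => (Pi.single k (1 : ℂ) : Fin 7 → ℂ) x * ((F x y : ℝ) / 2 : ℂ))]
      exact Finset.sum_congr rfl fun y _ => by ring
    rw [Finset.sum_congr rfl fun x _ => h1 x, hS k (fun x => ((F x l : ℝ) / 2 : ℂ))]
  refine obstruction (fun j k => (A j k 0 0).re) (fun j k => (A j k 1 1).re)
    (fun j k => (A j k 0 1).re) (fun j k => (A j k 0 1).im) (fun j k => (h00 j k).1)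
    (fun j k => (h11 j k).1) hdet ?_ ?_
  · intro k
    have h1 := hev (Pi.single k 1)
    rw [hQ k k, hF0] at h1
    simp only [hS] at h1
    have h2 := congrArg Complex.re h1
    simp only [hH] at h2
    have h3 : (∑ j, A j k 0 0) = ((∑ j, (A j k 0 0).re : ℝ) : ℂ) := by
      push_cast
      exact Finset.sum_congr rfl fun j _ => h00' j k
    have h4 : (∑ j, A j k 1 1) = ((∑ j, (A j k 1 1).re : ℝ) : ℂ) := by
      push_cast
      exact Finset.sum_congr rfl fun j _ => h11' j k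
    have h5 : ∀ j, A j k 0 1 * (starRingEnd ℂ) (A j k 0 1) =
        (((A j k 0 1).re ^ 2 + (A j k 0 1).im ^ 2 : ℝ) : ℂ) := by
      intro j
      rw [Complex.mul_conj, Complex.normSq_apply]
      push_cast
      ring
    rw [h3, h4, Finset.sum_congr rfl fun j _ => h5 j, ← Complex.ofReal_sum, ← Complex.ofReal_mul,
      ← Complex.ofReal_sub, Complex.ofReal_re] at h2
    simp at h2
    linarith
  · intro k l hkl
    have h1 := hB (Pi.single k 1) (Pi.single l 1)
    have h2 : ∑ x, ∑ y, ((F x y : ℝ) / 2 : ℂ) * ((Pi.single k (1 : ℂ) : Fin 7 → ℂ) x +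
        (Pi.single l (1 : ℂ) : Fin 7 → ℂ) x) * ((Pi.single k (1 : ℂ) : Fin 7 → ℂ) y +
        (Pi.single l (1 : ℂ) : Fin 7 → ℂ) y) = ((F k k : ℝ) / 2 : ℂ) + ((F k l : ℝ) / 2 : ℂ) +
          ((F l k : ℝ) / 2 : ℂ) + ((F l l : ℝ) / 2 : ℂ) := by
      rw [← hQ k k, ← hQ k l, ← hQ l k, ← hQ l l]
      simp only [← Finset.sum_add_distrib]
      exact Finset.sum_congr rfl fun x _ => Finset.sum_congr rfl fun y _ => by ring
    rw [h2, hQ k k, hQ l l] at h1
    simp only [hS] at h1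
    have h3 : ∀ k, (∑ j, A j k 0 0) = ((∑ j, (A j k 0 0).re : ℝ) : ℂ) := by
      intro k
      push_cast
      exact Finset.sum_congr rfl fun j _ => h00' j k
    have h4 : ∀ k, (∑ j, A j k 1 1) = ((∑ j, (A j k 1 1).re : ℝ) : ℂ) := by
      intro k
      push_cast
      exact Finset.sum_congr rfl fun j _ => h11' j k
    have h5 : ∀ j, A j k 0 1 * A j l 1 0 + A j l 0 1 * A j k 1 0 =
        ((2 * ((A j k 0 1).re * (A j l 0 1).re + (A j k 0 1).im * (A j l 0 1).im) : ℝ) : ℂ) := by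
      intro j
      rw [hH, hH]
      apply Complex.ext
      · simp
        ring
      · simp
        ring
    rw [h3, h3, h4, h4, Finset.sum_congr rfl fun j _ => h5 j, ← Complex.ofReal_sum,
      ← Complex.ofReal_mul, ← Complex.ofReal_mul, ← Complex.ofReal_add,
      ← Complex.ofReal_sub, hFs l k] at h1
    have h6 := congrArg Complex.re h1
    rw [Complex.ofReal_re] at h6
    rw [← Finset.mul_sum] at h6
    rw [← h6]
    simp
    ring

end

end Pool.Agent.H764MD
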